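import Pool.Agent.CR257.NonUnit

/-!
# MP_975ab8_al: determinants of circulants over chain rings of characteristic `p`

Let `R` be a finite commutative chain ring with `p = 0` in `R`, `p` prime, and `n = p^k m`. Then
`c_n(R, a) = |R|^(n - m) ∑_{y^(p^k) = a} c_m(R, y)` for every `a`, unit or not; in particular
`c_(p^k)(R, a)` is `q^(e p^k - ⌈e / p^k⌉)` if `a` is a `p^k`-th power, and `0` otherwise.
-/

set_option autoImplicit false

namespace Pool.Agent.Results.MP_975ab8_al.CharacteristicP

/-- The circulant matrix with first row `a 0, a 1, ..., a (n - 1)`: rows and columns are indexed by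
the residues modulo `n`, the entry `(i, j)` is `a (j - i)`. -/
def cir {n : ℕ} {R : Type} (a : ZMod n → R) : Matrix (ZMod n) (ZMod n) R :=
  Matrix.of fun i j => a (j - i)

/-- `c_n(R, y)`: the number of circulant `n × n` matrices over `R` with determinant `y`. -/
noncomputable def c (n : ℕ) [NeZero n] (R : Type) [CommRing R] (y : R) : ℕ :=
  {A : Matrix (ZMod n) (ZMod n) R | (∃ a : ZMod n → R, A = cir a) ∧ A.det = y}.ncard

theorem c_eq (n : ℕ) [NeZero n] (R : Type) [CommRing R] [Fintype R] [DecidableEq R] (y : R) :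
    c n R y = (Finset.univ.filter fun a : ZMod n → R => (CR257.cir a).det = y).card := by
  unfold c
  have h : {A : Matrix (ZMod n) (ZMod n) R | (∃ a : ZMod n → R, A = cir a) ∧ A.det = y} =
      CR257.cir '' {a : ZMod n → R | (CR257.cir a).det = y} := by
    ext A
    constructor
    · rintro ⟨⟨a, rfl⟩, h⟩
      exact ⟨a, h, rfl⟩
    · rintro ⟨a, h, rfl⟩
      exact ⟨⟨a, rfl⟩, h⟩
  have hinj : Function.Injective (CR257.cir : (ZMod n → R) → Matrix (ZMod n) (ZMod n) R) := by
    intro a b hab
    funext x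
    have := congrFun (congrFun hab 0) x
    simpa [CR257.cir] using this
  rw [h, Set.ncard_image_of_injective _ hinj, Set.ncard_eq_toFinset_card', Set.toFinset_ofPred]

/-- Let `R` be a finite commutative chain ring with `p = 0`, `γ` a generator of the maximal ideal,
`e` the nilpotency index, `q` the number of elements of the residue field, `n = p^k m`. For every
`a` in `R`: (1) `c_n(R, a) = |R|^(n - m) ∑_{y^(p^k) = a} c_m(R, y)`; (2) if `m = 1`, then
`c_n(R, a) = q^(e n - ⌈e / n⌉)` if `a` is an `n`-th power and `c_n(R, a) = 0` otherwise. -/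
theorem result (R : Type) [CommRing R] [Fintype R] [DecidableEq R] [IsLocalRing R]
    (_hR : ∀ I J : Ideal R, I ≤ J ∨ J ≤ I) (γ : R) (e q p k m n : ℕ) [NeZero m] [NeZero n]
    (hγ : IsLocalRing.maximalIdeal R = Ideal.span {γ})
    (he : IsLeast {i : ℕ | 1 ≤ i ∧ γ ^ i = 0} e)
    (hq : Nat.card (IsLocalRing.ResidueField R) = q) (hp : p.Prime) (hp0 : (p : R) = 0)
    (hn : n = p ^ k * m) (a : R) :
    c n R a = Fintype.card R ^ (n - m) *
      ∑ y ∈ Finset.univ.filter (fun y : R => y ^ (p ^ k) = a), c m R y ∧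
    (m = 1 → ((∃ b : R, b ^ n = a) → c n R a = q ^ (e * n - (e + n - 1) / n)) ∧
      ((¬ ∃ b : R, b ^ n = a) → c n R a = 0)) := by
  subst hn
  have h1 : c (p ^ k * m) R a = Fintype.card R ^ (p ^ k * m - m) *
      ∑ y ∈ Finset.univ.filter (fun y : R => y ^ (p ^ k) = a), c m R y := by
    rw [c_eq, CR257.NonUnit.count p k m R hp hp0 a]
    congr 1
    rw [Finset.card_eq_sum_card_fiberwise (f := fun b : ZMod m → R => (CR257.cir b).det)
      (t := Finset.univ.filter (fun y : R => y ^ (p ^ k) = a)) (fun b hb => by simpa using hb)]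
    refine Finset.sum_congr rfl fun y hy => ?_
    rw [c_eq]
    congr 1
    ext b
    simp only [Finset.mem_filter, Finset.mem_univ, true_and] at hy ⊢
    constructor
    · exact fun h => h.2
    · exact fun h => ⟨by rw [h]; exact hy, h⟩
  refine ⟨h1, ?_⟩
  rintro rfl
  have hc1 : ∀ y : R, c 1 R y = 1 := by
    intro y
    rw [c_eq, Finset.card_eq_one]
    refine ⟨fun _ => y, ?_⟩
    ext b
    rw [Finset.mem_filter, Finset.mem_singleton,
      Matrix.det_eq_elem_of_subsingleton (CR257.cir b) (0 : ZMod 1)]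
    have h2 : CR257.cir b 0 0 = b 0 := by simp [CR257.cir]
    rw [h2]
    constructor
    · rintro ⟨-, h⟩
      funext x
      rw [Subsingleton.elim x 0, h]
    · rintro rfl
      exact ⟨Finset.mem_univ _, rfl⟩
  have h2 : c (p ^ k * 1) R a = Fintype.card R ^ (p ^ k * 1 - 1) *
      (Finset.univ.filter (fun y : R => y ^ (p ^ k) = a)).card := by
    rw [h1]
    congr 1
    rw [Finset.sum_congr rfl (fun y _ => hc1 y), Finset.sum_const, smul_eq_mul, mul_one]
  haveI : Fact p.Prime := ⟨hp⟩
  haveI : CharP R p := (CharP.charP_iff_prime_eq_zero hp).2 hp0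
  have hN : 1 ≤ p ^ k := Nat.one_le_pow _ _ hp.pos
  constructor
  · rintro ⟨b, hb⟩
    rw [mul_one] at hb
    subst hb
    have h3 : (Finset.univ.filter (fun y : R => y ^ (p ^ k) = b ^ (p ^ k))).card =
        Nat.card (Ideal.span {γ ^ ((e + p ^ k - 1) / p ^ k)} : Ideal R) := by
      rw [← Fintype.card_coe, ← Nat.card_eq_fintype_card]
      have key : ∀ y : R, y ^ (p ^ k) = b ^ (p ^ k) ↔
          y - b ∈ Ideal.span {γ ^ ((e + p ^ k - 1) / p ^ k)} := by
        intro y
        rw [← CR257.pow_eq_zero_iff' R γ e hγ he (p ^ k) hN, sub_pow_char_pow, sub_eq_zero]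
      refine Nat.card_eq_of_bijective (fun y : Finset.univ.filter
        (fun y : R => y ^ (p ^ k) = b ^ (p ^ k)) => (⟨y.1 - b, (key y.1).1
          (Finset.mem_filter.1 y.2).2⟩ :
          (Ideal.span {γ ^ ((e + p ^ k - 1) / p ^ k)} : Ideal R))) ⟨?_, ?_⟩
      · intro u v h
        exact Subtype.ext (sub_left_injective (congrArg Subtype.val h))
      · rintro ⟨x, hx⟩
        refine ⟨⟨x + b, Finset.mem_filter.2 ⟨Finset.mem_univ _, (key _).2 (by simpa using hx)⟩⟩, ?_⟩
        exact Subtype.ext (add_sub_cancel_right x b)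
    obtain ⟨t, ht⟩ : ∃ t, (e + p ^ k - 1) / p ^ k = t := ⟨_, rfl⟩
    have he1 : 1 ≤ e := he.1.1
    have hte : t ≤ e := by
      rw [← ht, Nat.div_le_iff_le_mul_add_pred (by omega)]
      have : e ≤ p ^ k * e := Nat.le_mul_of_pos_left e (by omega)
      omega
    have h4 := CR257.card_pow R γ e hγ he (e - t) (Nat.sub_le _ _)
    rw [show e - (e - t) = t by omega] at h4
    have h5 := (CR257.Card.main R γ e hγ he).2
    rw [Nat.card_eq_fintype_card] at h5
    rw [h2]
    simp only [mul_one]
    rw [h3, ht, h4, h5, hq, ← pow_mul, ← pow_add]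
    congr 1
    obtain ⟨N, hNN⟩ : ∃ N, p ^ k = N + 1 := ⟨p ^ k - 1, by omega⟩
    rw [hNN, Nat.add_sub_cancel, mul_add, mul_one]
    omega
  · intro h
    rw [h2, Finset.card_eq_zero.2, mul_zero]
    rw [Finset.filter_eq_empty_iff]
    intro y _ hy
    exact h ⟨y, by rw [mul_one]; exact hy⟩

end Pool.Agent.Results.MP_975ab8_al.CharacteristicP
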